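import Pool.Agent.P8H89.GM.An
import Pool.Agent.N469.TL.BT

/-!
# The Brun–Titchmarsh inequality with the constant `1` for almost all classes: every large integer is such a
modulus plus very few elements of an arbitrary set which meets every interval `[x, l x]`

Nothing is used besides Mathlib in the statement.

Method: the random integers `N - ∑ a` with the random choice of few elements `a` of the set of the starting
files have, together with all their multiples, a thin large spectrum (`Pool.Agent.Y454.RM.t_LASH`); the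
argument of the starting files for the variance over random moduli (`Pool.Agent.Y958.RM.main`) is applied
to all the neighbours (`Pool.Agent.P8H89.GM.any_near`), and `Pool.Agent.N469.TL.BT.det` leads from the
variance to the number of primes in all the intervals.
-/

set_option autoImplicit false

namespace Pool.Agent.Results.MP_26a8c3_nt.ElementsOfAnySet

open Finset

/-- `N(x, y; q, a)` for `0 ≤ y ≤ x` and `0 ≤ a < q`: the number of the primes `p` with `x - y < p ≤ x` and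
`p ≡ a (mod q)` -/
noncomputable def cnt (x y : ℝ) (q a : ℕ) : ℕ :=
  ((Ioc ⌊x - y⌋₊ ⌊x⌋₊).filter (fun p => p.Prime ∧ p % q = a)).card

open Classical in
/-- For all `a` with `0 ≤ a < q` and `gcd(a, q) = 1`, except for at most `φ(q) / (log q) ^ T` of them:
`N(x, y; q, a) ≤ (1 + ε) y / (φ(q) log q)` for ALL real `x`, `y` with
`q (log q) ^ C ≤ y ≤ x ≤ q (log q) ^ (C + D)`. -/
def Holds (ε : ℝ) (T C D q : ℕ) : Prop :=
  (((range q).filter (fun a => Nat.Coprime a q ∧ ∃ x y : ℝ, q * Real.log q ^ C ≤ y ∧ y ≤ x ∧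
    x ≤ q * Real.log q ^ (C + D) ∧ (1 + ε) * (y / (Nat.totient q * Real.log q)) < cnt x y q a)).card : ℝ) ≤
    Nat.totient q / Real.log q ^ T

/-- Let `l ≥ 2`, `D`, `T`, `W` and `C ≥ 2 D + T + 2` be fixed. There is a constant `K` such that for every
`ε` with `0 < ε ≤ 1` there is an `N₀` with the following property. Let `A` be an arbitrary set of integers
which contains an element of every interval `[x, l x]`, `x ≥ 1` (`K` and `N₀` do not depend on `A`). Then
every integer `N ≥ N₀` is the sum of an integer `v ≥ N / 2` and of at most `K (log log N) ^ 2` distinct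
elements of `A`, where ALL the moduli `q` with `|q - v| ≤ log ^ W N` have the property `Holds`: for all
reduced classes `a` modulo `q`, except for at most `φ(q) / (log q) ^ T` of them,
`N(x, y; q, a) ≤ (1 + ε) y / (φ(q) log q)` for ALL real `x`, `y` with
`q (log q) ^ C ≤ y ≤ x ≤ q (log q) ^ (C + D)`. -/
theorem result (l : ℕ) (hl : 2 ≤ l) (C D T W : ℕ) (hC : 2 * D + T + 2 ≤ C) : ∃ K : ℝ,
    ∀ ε : ℝ, 0 < ε → ε ≤ 1 → ∃ N₀ : ℕ, ∀ A : Set ℕ,
    (∀ x : ℕ, 1 ≤ x → ∃ a ∈ A, x ≤ a ∧ a ≤ l * x) → ∀ N : ℕ, N₀ ≤ N →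
      ∃ S : Finset ℕ, (∀ a ∈ S, a ∈ A) ∧ (S.card : ℝ) ≤ K * Real.log (Real.log N) ^ 2 ∧
        ∃ v : ℕ, v + ∑ a ∈ S, a = N ∧ N ≤ 2 * v ∧
          ∀ q : ℕ, |(q : ℝ) - v| ≤ Real.log N ^ W → Holds ε T C D q := by
  obtain ⟨K, hK⟩ := Pool.Agent.P8H89.GM.any_near l (C + D + 2) W hl
  refine ⟨K, fun ε hε hε1 => ?_⟩
  obtain ⟨N1, h1⟩ := hK 1 one_pos le_rfl
  obtain ⟨Q₀, h2⟩ := Pool.Agent.N469.TL.BT.det ε hε hε1 C D T hC
  obtain ⟨N3, h3⟩ := Pool.Agent.P8H89.GM.ev_loglog ((2 : ℝ) ^ (C + D + 1) + 1)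
  have h4 : ∀ᶠ N : ℕ in Filter.atTop, Real.log N ^ W ≤ (1 / 4) * N := by
    have := (isLittleO_log_rpow_rpow_atTop (s := 1) (W : ℝ) one_pos).bound (show (0 : ℝ) < 1 / 4 by norm_num)
    have h5 := tendsto_natCast_atTop_atTop.eventually this
    filter_upwards [h5, Filter.eventually_ge_atTop 1] with N hN hN1
    have hlog : 0 ≤ Real.log N := Real.log_natCast_nonneg N
    rw [Real.rpow_natCast, Real.rpow_one, Real.norm_eq_abs, Real.norm_eq_abs,
      abs_of_nonneg (pow_nonneg hlog _), abs_of_nonneg (Nat.cast_nonneg _)] at hN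
    exact hN
  obtain ⟨N4, h4⟩ := h4.exists_forall_of_atTop
  refine ⟨N1 + 4 * Q₀ + N3 + N4 + 4, fun A hA N hN => ?_⟩
  obtain ⟨S, s1, s2, s3, s4⟩ := h1 A hA N (by omega)
  refine ⟨S, s1, s2, N - ∑ a ∈ S, a, by omega, by omega, fun q hq => ?_⟩
  have hSN : ∑ a ∈ S, a ≤ N := by omega
  have e0 : ((N - ∑ a ∈ S, a : ℕ) : ℝ) = (N : ℝ) - ((∑ a ∈ S, a : ℕ) : ℝ) := Nat.cast_sub hSN
  have hq' : |((q : ℤ) - ((N : ℤ) - ((∑ a ∈ S, a : ℕ) : ℤ)) : ℝ)| ≤ Real.log N ^ W := by
    rw [e0] at hq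
    push_cast at hq ⊢
    exact hq
  have hL := h3 N (by omega)
  have hW := h4 N (by omega)
  have hv : (N : ℝ) ≤ 2 * ((N - ∑ a ∈ S, a : ℕ) : ℝ) := by exact_mod_cast (by omega : N ≤ 2 * (N - ∑ a ∈ S, a))
  have hv' : ((N - ∑ a ∈ S, a : ℕ) : ℝ) ≤ N := by exact_mod_cast Nat.sub_le _ _
  have hN4 : (4 : ℝ) ≤ N := by exact_mod_cast (by omega : 4 ≤ N)
  have hq1 := abs_le.1 hq
  have hqN : (N : ℝ) ≤ 4 * q := by linarith [hq1.1]
  have hqN' : (q : ℝ) ≤ 2 * N := by linarith [hq1.2]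
  have hqQ : Q₀ ≤ q := by
    have : N ≤ 4 * q := by exact_mod_cast hqN
    omega
  have hq0 : (1 : ℝ) ≤ q := by linarith
  have hlogq0 : 0 ≤ Real.log q := Real.log_nonneg hq0
  have h2κ : (0 : ℝ) < (2 : ℝ) ^ (C + D + 1) := by positivity
  have hLN : 0 < Real.log N := by linarith
  have hlogq : Real.log q ≤ 2 * Real.log N := by
    have a1 : Real.log q ≤ Real.log ((N : ℝ) ^ 2) := by
      apply Real.log_le_log (by linarith)
      nlinarith
    rw [Real.log_pow] at a1
    push_cast at a1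
    exact a1
  refine h2 q hqQ (fun x x1 x2 => ?_)
  have a2 : x ≤ q * Real.log N ^ (C + D + 2) := by
    refine x2.trans ?_
    apply mul_le_mul_of_nonneg_left _ (by linarith)
    calc Real.log q ^ (C + D + 1) ≤ (2 * Real.log N) ^ (C + D + 1) := pow_le_pow_left₀ hlogq0 hlogq _
      _ = 2 ^ (C + D + 1) * Real.log N ^ (C + D + 1) := by rw [mul_pow]
      _ ≤ Real.log N * Real.log N ^ (C + D + 1) := by
          apply mul_le_mul_of_nonneg_right _ (by positivity)
          linarith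
      _ = Real.log N ^ (C + D + 2) := by rw [← pow_succ']
  have a3 := (abs_le.1 (s4 q hq' x x1 a2)).2
  linarith

end Pool.Agent.Results.MP_26a8c3_nt.ElementsOfAnySet
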