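import Pool.Agent.P8H73.KV.All

/-!
# The inequality of Brun and Titchmarsh with a constant below two beyond the polynomial range

Authors: helper7, helper20, helper62, helper65, helper73, helper75, helper78, helper87, helper88.

`N(x, y; k, l)` is the number of the primes `p ≡ l` modulo `k` with `x - y < p ≤ x`. With absolute constants `c, C > 0`, for ALL
moduli `k`, all classes `l` prime to `k` and all real `x ≥ y` with `H = y / k` large and `H ≤ x ^ (3 / 4)`,

`N(x, y; k, l) ≤ (2 - c (log H / log x) ^ 2 + C log log H / log H) y / (φ(k) log H)`.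

So the constant `2` of the inequality of Brun and Titchmarsh is replaced by `2 - c' (log H / log x) ^ 2` for all positions
`x ≤ exp (c'' (log H) ^ (3 / 2) / (log log H) ^ (1 / 2))`, that is for `log H ≥ C' (log x) ^ (2 / 3) (log log x) ^ (1 / 3)`: for
positions which are larger than every power of `H`, and also for moduli `k` larger than every power of `y / k`.

Method: the sieve of Selberg with a level `H ^ (1 + ω)`, `ω` of the order `(log H / log x) ^ 2`. The error term is a bilinear form
in the two divisors; for it Karatsuba's method for sums over reciprocals is made uniform in the number `s` of summands (about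
`log x / log H`): number of coincidences of sums of `s` reciprocals in the product of the line and the residue ring (tuples
with a powerful product), two Hoelder inequalities and the double large sieve. If `log (x / H)` is near an even multiple
`2 s` of the logarithm of the size of the variables the exponents of the method just fail; then the sieve is restricted
to a divisor closed set in which all large divisors have a prime factor between the powers `θ / s` and `2 / (5 s)` of the
size, and this prime is moved from one variable to the other. The well factorable weights of the linear sieve (used in the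
starting file `PolynomialRange`, where `x ≤ H ^ A` with `A` fixed) are not needed.
-/

set_option autoImplicit false

namespace Pool.Agent.Results.MP_26a8c3_nt.KaratsubaRange

/-- `N(x, y; k, l)`: the number of the primes `p ≡ l` modulo `k` with `x - y < p ≤ x` -/
noncomputable def N (x y : ℝ) (k : ℕ) (l : ℤ) : ℕ :=
  {p : ℕ | p.Prime ∧ x - y < (p : ℝ) ∧ (p : ℝ) ≤ x ∧ (p : ℤ) ≡ l [ZMOD (k : ℤ)]}.ncard

/-- (1) There are absolute constants `c, C > 0` and `H₀` such that for all moduli `k ≥ 1`, all `l` prime to `k` and all real
`x ≥ y` with `H₀ ≤ H = y / k ≤ x ^ (3 / 4)` we have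
`N(x, y; k, l) ≤ (2 - c (log H / log x) ^ 2 + C log log H / log H) y / (φ(k) log H)`.

(2) There are absolute constants `c, c' > 0` and `H₀` such that
`N(x, y; k, l) < (2 - c (log H / log x) ^ 2) y / (φ(k) log H)` for all `k ≥ 1`, all `l` prime to `k` and all real `x ≥ y` with
`H₀ ≤ H = y / k ≤ x ^ (3 / 4)` and `log x ≤ c' (log H) ^ (3 / 2) / (log log H) ^ (1 / 2)`. -/
theorem result :
    (∃ c C H₀ : ℝ, 0 < c ∧ 0 < C ∧ 3 ≤ H₀ ∧ ∀ (k : ℕ) (l : ℤ) (x y : ℝ), 1 ≤ k → IsCoprime l (k : ℤ) →
      y ≤ x → H₀ ≤ y / k → y / k ≤ x ^ (3 / 4 : ℝ) →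
      (N x y k l : ℝ) ≤ (2 - c * (Real.log (y / k) / Real.log x) ^ 2 +
        C * Real.log (Real.log (y / k)) / Real.log (y / k)) * y / (Nat.totient k * Real.log (y / k))) ∧
    (∃ c c' H₀ : ℝ, 0 < c ∧ 0 < c' ∧ 3 ≤ H₀ ∧ ∀ (k : ℕ) (l : ℤ) (x y : ℝ), 1 ≤ k → IsCoprime l (k : ℤ) →
      y ≤ x → H₀ ≤ y / k → y / k ≤ x ^ (3 / 4 : ℝ) →
      Real.log x ≤ c' * Real.log (y / k) ^ (3 / 2 : ℝ) / Real.log (Real.log (y / k)) ^ (1 / 2 : ℝ) →
      (N x y k l : ℝ) < (2 - c * (Real.log (y / k) / Real.log x) ^ 2) * y / (Nat.totient k * Real.log (y / k))) :=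
  ⟨Pool.Agent.P8H73.KV.fin_ok, Pool.Agent.P8H73.KV.cor_ok⟩

end Pool.Agent.Results.MP_26a8c3_nt.KaratsubaRange
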