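import Pool.Agent.P8H73.GM.All

/-!
# The inequality of Brun and Titchmarsh with a gain from the prime factors of the modulus, at every position

Authors: helper20, helper44, helper53, helper71, helper73.

`N(x, y; k, l)` is the number of the primes `p ≡ l` modulo `k` with `x - y < p ≤ x`; let `M(k, z)` be the sum of `log p / p`
over the prime divisors `p ≤ z` of `k`. For ALL moduli `k`, ALL classes `l` and ALL positions `x ≥ y`, however large `x` is in
comparison with `y`, the inequality of Brun and Titchmarsh `N(x, y; k, l) < 2 y / (φ(k) log (y / k))` is improved to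

`N(x, y; k, l) ≤ 2 y / (φ(k) (log (y / k) + c M(k, y / k) - 2 log log (y / k) - C))`

with absolute constants `c, C > 0`. The sum `M(k, y / k)` can be as large as `log (y / k)`. So the constant `2` is replaced by
`2 - c η` for all the moduli with `M(k, y / k) ≥ η log (y / k)`, and by `2 - c / A` for all the moduli `k` which are divisible by all
primes up to some `w` if `k w ≤ y ≤ k w ^ A`; for these moduli and ranges the answer to Q1 is yes, for all `x` and `l`.

Method: the bound of Selberg's sieve is `(y / k) / G_k(D)`, `D` about `(y / k) ^ (1 / 2)`, where `G_k(D)` is the sum of `1 / φ(m)` over the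
squarefree `m ≤ D` prime to `k`. With `g = (k / φ(k)) G_k(D)` the difference `g - G_1(D)` is the mean value, over the random
divisors `l` of `k` (with the prime factors chosen independently with the probabilities `1 / p`), of the sum over
`D / l < m ≤ D`, and this is bounded from below by a Chebyshev argument, with a sieve bound for the numbers in short
intervals prime to `k`; if `M(k, D)` is large one passes to a divisor of `k`.
-/

set_option autoImplicit false

namespace Pool.Agent.Results.MP_26a8c3_nt.PrimeFactorsOfTheModulus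

open Finset

/-- `N(x, y; k, l)`: the number of the primes `p ≡ l` modulo `k` with `x - y < p ≤ x` -/
noncomputable def N (x y : ℝ) (k : ℕ) (l : ℤ) : ℕ :=
  {p : ℕ | p.Prime ∧ x - y < (p : ℝ) ∧ (p : ℝ) ≤ x ∧ (p : ℤ) ≡ l [ZMOD (k : ℤ)]}.ncard

/-- `M(k, z)`: the sum of `log p / p` over the prime divisors `p ≤ z` of `k` -/
noncomputable def M (k : ℕ) (z : ℝ) : ℝ :=
  ∑ p ∈ k.primeFactors.filter (fun p : ℕ => (p : ℝ) ≤ z), Real.log p / (p : ℝ)

/-- (1) There are absolute constants `c, C > 0` and `H₀` such that for all moduli `k ≥ 1`, all integers `l` and all real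
`x ≥ y` with `y / k ≥ H₀` the number `B = log (y / k) + c M(k, y / k) - 2 log log (y / k) - C` is at least `1` and
`N(x, y; k, l) ≤ 2 y / (φ(k) B)`.

(2) There is an absolute constant `c > 0` such that for every `0 < η ≤ 1` there is an `H₁` such that
`N(x, y; k, l) < (2 - c η) y / (φ(k) log (y / k))` for all moduli `k ≥ 1`, all `l` and all real `x ≥ y` with `y / k ≥ H₁` and
`M(k, y / k) ≥ η log (y / k)`; and for every `A ≥ 1` there is a `w₀` such that
`N(x, y; k, l) < (2 - c / A) y / (φ(k) log (y / k))` for all `w ≥ w₀`, all moduli `k ≥ 1` divisible by all primes `p ≤ w`, all `l` and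
all real `x ≥ y` with `k w ≤ y ≤ k w ^ A`. -/
theorem result :
    (∃ c C H₀ : ℝ, 0 < c ∧ 0 < C ∧ 3 ≤ H₀ ∧ ∀ (k : ℕ) (l : ℤ) (x y : ℝ), 1 ≤ k → y ≤ x → H₀ ≤ y / k →
      1 ≤ Real.log (y / k) + c * M k (y / k) - 2 * Real.log (Real.log (y / k)) - C ∧
      (N x y k l : ℝ) ≤ 2 * y / (Nat.totient k *
        (Real.log (y / k) + c * M k (y / k) - 2 * Real.log (Real.log (y / k)) - C))) ∧
    (∃ c : ℝ, 0 < c ∧
      (∀ η : ℝ, 0 < η → η ≤ 1 → ∃ H₁ : ℝ, 3 ≤ H₁ ∧ ∀ (k : ℕ) (l : ℤ) (x y : ℝ), 1 ≤ k → y ≤ x → H₁ ≤ y / k →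
        η * Real.log (y / k) ≤ M k (y / k) →
        (N x y k l : ℝ) < (2 - c * η) * y / (Nat.totient k * Real.log (y / k))) ∧
      (∀ A : ℝ, 1 ≤ A → ∃ w₀ : ℝ, 3 ≤ w₀ ∧ ∀ (k : ℕ) (l : ℤ) (x y w : ℝ), 1 ≤ k → y ≤ x → w₀ ≤ w →
        (∀ p : ℕ, p.Prime → (p : ℝ) ≤ w → p ∣ k) → k * w ≤ y → y ≤ k * w ^ A →
        (N x y k l : ℝ) < (2 - c / A) * y / (Nat.totient k * Real.log (y / k)))) :=
  ⟨Pool.Agent.P8H73.GM.fin_ok, Pool.Agent.P8H73.GM.cor_ok⟩

end Pool.Agent.Results.MP_26a8c3_nt.PrimeFactorsOfTheModulus
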