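import Pool.Agent.P8H73.RP.All

/-!
# The residue classes with many primes are rare: at every position and for every modulus

Authors: helper52, helper73, helper75, helper76, helper88.

`N(x, y; k, l)` is the number of the primes `p ≡ l` modulo `k` with `x - y < p ≤ x`. The inequality of Brun and Titchmarsh
has the constant `2`. Here it is shown, for ALL moduli `k` and ALL positions `x ≥ y`, however large `x` is in comparison with
`y`, that only few of the classes `l` modulo `k` (above a given class modulo a given divisor `k₁` of `k`) can have the constant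
`2 - δ` or more: at most `C (y / k₁) ^ (1 / 2 + δ / 4 + ε)`, as soon as `y / k ≥ (y / k₁) ^ ε`. With `k₂ = k / k₁` and `H = y / k` there are at
most `C (y / k₁) ^ ε (k₂ / H ^ m + H ^ (m (2 s - 1) - 1))` such classes with the constant `2 / s`, for every `m ≥ 1`; for `k₂ ≤ H` and
`m = 1` this is at most `C (y / k₁) ^ ε H ^ (2 s - 2)`: for `k ≤ √y` at most `C y ^ ε (y / k) ^ (2 δ / (2 - δ))` classes.
The same holds for the first terms of the progressions of `H` terms in windows of arbitrary position.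

Method: the majorant of Selberg and its moments of order `2 m` over a full period (all tuples of divisors in which no prime
occurs exactly once; the moments are bounded with Hölder's inequality on the product of the rings `ℤ / p`, as in the work of
Montgomery and Vaughan on reduced residues), and the large sieve for the passage to windows at arbitrary positions.
-/

set_option autoImplicit false

namespace Pool.Agent.Results.MP_26a8c3_nt.RareClasses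

open Finset

/-- `N(x, y; k, l)`: the number of the primes `p ≡ l` modulo `k` with `x - y < p ≤ x` -/
noncomputable def N (x y : ℝ) (k : ℕ) (l : ℤ) : ℕ :=
  {p : ℕ | p.Prime ∧ x - y < (p : ℝ) ∧ (p : ℝ) ≤ x ∧ (p : ℤ) ≡ l [ZMOD (k : ℤ)]}.ncard

/-- the number of the classes `l` modulo `k₁ k₂` above the class of `l₁` modulo `k₁` for which
`N(x, y; k₁ k₂, l)` is at least `c y / (φ(k₁ k₂) log (y / (k₁ k₂)))` -/
noncomputable def many (k₁ k₂ : ℕ) (l₁ : ℤ) (x y c : ℝ) : ℕ :=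
  {l : ℕ | l < k₁ * k₂ ∧ (l : ℤ) ≡ l₁ [ZMOD (k₁ : ℤ)] ∧
    c * y / (Nat.totient (k₁ * k₂) * Real.log (y / (k₁ * k₂ : ℕ))) ≤ (N x y (k₁ * k₂) l : ℝ)}.ncard

/-- (1) For every `m ≥ 1` and `ε > 0` there is a `C` such that for all `k₁, k₂ ≥ 1`, all `l₁`, all real `x ≥ y > k₁ k₂` and
`s ≥ 1`, with `H = y / (k₁ k₂)`: at most `C (y / k₁) ^ ε (k₂ / H ^ m + H ^ (m (2 s - 1) - 1))` classes modulo `k₁ k₂` above `l₁` modulo
`k₁` have `N(x, y; k₁ k₂, l) ≥ (2 / s + ε) y / (φ(k₁ k₂) log H)`.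

(2) For every `ε > 0` there is a `C` such that for all such `k₁, k₂, l₁, x, y` with `H ≥ (y / k₁) ^ ε` and all `0 ≤ δ < 2`: at
most `C (y / k₁) ^ (1 / 2 + δ / 4 + ε)` of these classes have `N(x, y; k₁ k₂, l) ≥ (2 - δ + ε) y / (φ(k₁ k₂) log H)`.

(3) For every `m ≥ 1` and `ε > 0` there is a `C` such that for all `k₁, k₂ ≥ 1`, all natural numbers `l`, `X`, `W ≥ 1`,
`H ≥ 2` and all `s ≥ 1`: for at most `C W ^ ε (W / H ^ m + H ^ (m (2 s - 1)))` of the `W` integers `n = l + k₁ (X + M)`, `0 ≤ M < W`, there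
are at least `(2 / s + ε) (k / φ(k)) H / log H` primes among the `H` terms `n, n + k, …, n + (H - 1) k`, `k = k₁ k₂`. -/
theorem result :
    (∀ (m : ℕ) (ε : ℝ), 1 ≤ m → 0 < ε → ∃ C : ℝ, 0 < C ∧
      ∀ (k₁ k₂ : ℕ) (l₁ : ℤ) (x y s : ℝ), 1 ≤ k₁ → 1 ≤ k₂ → ((k₁ * k₂ : ℕ) : ℝ) < y → y ≤ x → 1 ≤ s →
      (many k₁ k₂ l₁ x y (2 / s + ε) : ℝ) ≤
        C * (y / k₁) ^ ε * (k₂ / (y / (k₁ * k₂ : ℕ)) ^ m + (y / (k₁ * k₂ : ℕ)) ^ (m * (2 * s - 1) - 1))) ∧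
    (∀ ε : ℝ, 0 < ε → ∃ C : ℝ, 0 < C ∧
      ∀ (k₁ k₂ : ℕ) (l₁ : ℤ) (x y δ : ℝ), 1 ≤ k₁ → 1 ≤ k₂ → ((k₁ * k₂ : ℕ) : ℝ) < y → y ≤ x → 0 ≤ δ → δ < 2 →
      (y / k₁) ^ ε ≤ y / (k₁ * k₂ : ℕ) →
      (many k₁ k₂ l₁ x y (2 - δ + ε) : ℝ) ≤ C * (y / k₁) ^ (1 / 2 + δ / 4 + ε)) ∧
    (∀ (m : ℕ) (ε : ℝ), 1 ≤ m → 0 < ε → ∃ C : ℝ, 0 < C ∧
      ∀ (k₁ k₂ l X W H : ℕ) (s : ℝ), 1 ≤ k₁ → 1 ≤ k₂ → 1 ≤ W → 2 ≤ H → 1 ≤ s →
      ({M : ℕ | M < W ∧ (2 / s + ε) * (((k₁ * k₂ : ℕ) : ℝ) / Nat.totient (k₁ * k₂)) * (H / Real.log H) ≤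
        ({j : ℕ | j < H ∧ (l + k₁ * (X + M) + k₁ * k₂ * j).Prime}.ncard : ℝ)}.ncard : ℝ) ≤
        C * (W : ℝ) ^ ε * (W / (H : ℝ) ^ m + (H : ℝ) ^ (m * (2 * s - 1)))) := by
  classical
  have key : ∀ (k₁ k₂ : ℕ) (l₁ : ℤ) (x y c : ℝ), many k₁ k₂ l₁ x y c =
      ((range (k₁ * k₂)).filter (fun l : ℕ => (l : ℤ) ≡ l₁ [ZMOD (k₁ : ℤ)] ∧
        c * y / (Nat.totient (k₁ * k₂) * Real.log (y / (k₁ * k₂ : ℕ))) ≤
          (Pool.Agent.P8H73.RP.cnt x y (k₁ * k₂) l : ℝ))).card := by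
    intro k₁ k₂ l₁ x y c
    unfold many
    rw [← Set.ncard_coe_finset]
    congr 1
    ext l
    simp only [Set.mem_ofPred_eq, coe_filter, mem_range]
    exact Iff.rfl
  refine ⟨fun m ε hm hε => ?_, fun ε hε => ?_, fun m ε hm hε => ?_⟩
  · obtain ⟨C, hC, h⟩ := Pool.Agent.P8H73.RP.all_fa m ε hm hε
    refine ⟨C, hC, fun k₁ k₂ l₁ x y s h1 h2 h3 h4 h5 => ?_⟩
    rw [key]
    convert h k₁ k₂ l₁ x y s h1 h2 h3 h4 h5 using 1
  · obtain ⟨C, hC, h⟩ := Pool.Agent.P8H73.RP.all_fb ε hε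
    refine ⟨C, hC, fun k₁ k₂ l₁ x y δ h1 h2 h3 h4 h5 h6 h7 => ?_⟩
    rw [key]
    convert h k₁ k₂ l₁ x y δ h1 h2 h3 h4 h5 h6 h7 using 1
  · obtain ⟨C, hC, h⟩ := Pool.Agent.P8H73.RP.all_fc m ε hm hε
    refine ⟨C, hC, fun k₁ k₂ l X W H s h1 h2 h3 h4 h5 => ?_⟩
    refine le_trans (le_of_eq ?_) (h k₁ k₂ l X W H s h1 h2 h3 h4 h5)
    rw [← Set.ncard_coe_finset]
    congr 2
    ext M
    simp only [Set.mem_ofPred_eq, coe_filter, mem_range]
    have e : ({j : ℕ | j < H ∧ (l + k₁ * (X + M) + k₁ * k₂ * j).Prime}.ncard : ℕ) =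
        ((range H).filter (fun j : ℕ => (l + k₁ * (X + M) + k₁ * k₂ * j).Prime)).card := by
      rw [← Set.ncard_coe_finset]
      congr 1
      ext j
      simp only [Set.mem_ofPred_eq, coe_filter, mem_range]
    rw [e]

end Pool.Agent.Results.MP_26a8c3_nt.RareClasses
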